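import Pool.Agent.Shared.TJoin

/-!
Five-flows with large support.
-/

namespace Pool.Agent.Lib.MP_c8786f_co.Support

open Finset Pool.Agent.Shared.TJoin

variable {V E : Type} [Fintype V] [DecidableEq V] [Fintype E] [DecidableEq E]

lemma quarter {y a b a1 a2 b1 b2 : ℤ} (h : a + b = y) (h' : |a - b| ≤ 1)
    (ha : a1 + a2 = a) (ha' : |a1 - a2| ≤ 1) (hb : b1 + b2 = b) (hb' : |b1 - b2| ≤ 1)
    (hy : |y| ≤ 16) :
    (|a1| ≤ 4 ∧ |a2| ≤ 4 ∧ |b1| ≤ 4 ∧ |b2| ≤ 4) ∧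
    (4 ≤ |y| → a1 ≠ 0 ∧ a2 ≠ 0 ∧ b1 ≠ 0 ∧ b2 ≠ 0) ∧
    (y ≠ 0 → a1 ≠ 0 ∨ a2 ≠ 0 ∨ b1 ≠ 0 ∨ b2 ≠ 0) := by
  rw [abs_le] at h' ha' hb' hy
  simp only [abs_le, le_abs]
  refine ⟨by omega, fun h4 => ?_, fun h0 => by omega⟩
  rcases h4 with h4 | h4 <;> omega

theorem large_support (s t : E → V) (hb : ∀ c, (cut s t c).card ≠ 1)
    (w : E → ℝ) (hw : ∀ e, 0 ≤ w e) :
    ∃ f : E → ℤ, (∀ e, |f e| ≤ 4) ∧ Circ s t f ∧
      ∑ e with f e = 0, w e ≤ 11 / 210 * ∑ e, w e := by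
  obtain ⟨J1, hJ1, hw1, hc1⟩ := exists_join_inter s t univ 3 (by norm_num) w hw (by
    intro c hc _
    have := hb c
    obtain ⟨k, hk⟩ := hc
    omega)
  rw [univ_inter] at hw1 hc1
  obtain ⟨J2, hJ2, hw2, hc2⟩ := exists_join_inter s t J1 5 (by norm_num) w hw (by
    intro c hc h
    have := hc1 c hc h
    obtain ⟨k, hk⟩ := hc
    omega)
  obtain ⟨J3, hJ3, hw3, -⟩ := exists_join_inter s t (J1 ∩ J2) 7 (by norm_num) w hw (by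
    intro c hc h
    have := hc2 c hc h
    obtain ⟨k, hk⟩ := hc
    omega)
  obtain ⟨f1, hf1, h1, h1'⟩ := exists_orient_compl s t J1 hJ1
  obtain ⟨f2, hf2, h2, h2'⟩ := exists_orient_compl s t J2 hJ2
  obtain ⟨f3, hf3, h3, h3'⟩ := exists_orient_compl s t J3 hJ3
  let y : E → ℤ := fun e => 10 * f1 e + 5 * f2 e + f3 e
  have hy : Circ s t y := by
    intro p
    have e1 := hf1 p
    have e2 := hf2 p
    have e3 := hf3 p
    have : ∑ e, y e * (p (s e) - p (t e)) = 10 * ∑ e, f1 e * (p (s e) - p (t e)) +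
        5 * ∑ e, f2 e * (p (s e) - p (t e)) + ∑ e, f3 e * (p (s e) - p (t e)) := by
      simp only [mul_sum, ← sum_add_distrib]
      exact sum_congr rfl fun e _ => by simp only [y]; ring
    rw [this, e1, e2, e3]; simp
  obtain ⟨a, b, ha, hb', hab⟩ := hy.halve
  obtain ⟨a1, a2, ha1, ha2, haa⟩ := ha.halve
  obtain ⟨b1, b2, hb1, hb2, hbb⟩ := hb'.halve
  have hy1 : ∀ e, |y e| ≤ 16 ∧ (e ∉ J1 ∩ J2 → 4 ≤ |y e|) ∧ (e ∉ J1 ∩ J2 ∩ J3 → y e ≠ 0) := by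
    intro e
    have k1 : (e ∈ J1 ∧ f1 e = 0) ∨ (e ∉ J1 ∧ (f1 e = 1 ∨ f1 e = -1)) := by
      by_cases h : e ∈ J1
      exacts [Or.inl ⟨h, h1' e h⟩, Or.inr ⟨h, h1 e h⟩]
    have k2 : (e ∈ J2 ∧ f2 e = 0) ∨ (e ∉ J2 ∧ (f2 e = 1 ∨ f2 e = -1)) := by
      by_cases h : e ∈ J2
      exacts [Or.inl ⟨h, h2' e h⟩, Or.inr ⟨h, h2 e h⟩]
    have k3 : (e ∈ J3 ∧ f3 e = 0) ∨ (e ∉ J3 ∧ (f3 e = 1 ∨ f3 e = -1)) := by
      by_cases h : e ∈ J3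
      exacts [Or.inl ⟨h, h3' e h⟩, Or.inr ⟨h, h3 e h⟩]
    simp only [y, mem_inter]
    rcases k1 with ⟨m1, v1⟩ | ⟨m1, v1 | v1⟩ <;> rcases k2 with ⟨m2, v2⟩ | ⟨m2, v2 | v2⟩ <;>
      rcases k3 with ⟨m3, v3⟩ | ⟨m3, v3 | v3⟩ <;> simp [m1, m2, m3, v1, v2, v3]
  have hq := fun e => quarter (hab e).1 (hab e).2 (haa e).1 (haa e).2 (hbb e).1 (hbb e).2 (hy1 e).1
  have hsum : ∑ e with a1 e = 0, w e + ∑ e with a2 e = 0, w e + ∑ e with b1 e = 0, w e +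
      ∑ e with b2 e = 0, w e ≤ 3 * ∑ e ∈ J1 ∩ J2, w e + ∑ e ∈ J1 ∩ J2 ∩ J3, w e := by
    have e1 : ∀ K : Finset E, ∑ e ∈ K, w e = ∑ e, if e ∈ K then w e else 0 := fun K => by
      rw [sum_ite_mem, univ_inter]
    rw [e1 (J1 ∩ J2), e1 (J1 ∩ J2 ∩ J3)]
    simp only [sum_filter, mul_sum, ← sum_add_distrib]
    refine sum_le_sum fun e _ => ?_
    have hwe := hw e
    by_cases m : e ∈ J1 ∩ J2
    · by_cases m' : e ∈ J1 ∩ J2 ∩ J3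
      · simp only [m, m', if_true]
        split_ifs <;> linarith
      · have := (hq e).2.2 ((hy1 e).2.2 m')
        simp only [m, m', if_true, if_false]
        split_ifs <;> first | linarith | (exfalso; tauto)
    · obtain ⟨k1, k2, k3, k4⟩ := (hq e).2.1 ((hy1 e).2.1 m)
      have m' : e ∉ J1 ∩ J2 ∩ J3 := fun h => m (mem_of_mem_inter_left h)
      simp only [k1, k2, k3, k4, m, m', if_false]
      simp
  push_cast at hw1 hw2 hw3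
  by_contra hn
  push Not at hn
  have g1 := hn a1 (fun e => (hq e).1.1) ha1
  have g2 := hn a2 (fun e => (hq e).1.2.1) ha2
  have g3 := hn b1 (fun e => (hq e).1.2.2.1) hb1
  have g4 := hn b2 (fun e => (hq e).1.2.2.2) hb2
  linarith

end Pool.Agent.Lib.MP_c8786f_co.Support
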